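import Pool.Agent.Mg.F9cfd17.G7c6f02
import Pool.Agent.Mg.F9cfd17.Gc685a4

/-! At least `n^(1/3) / (log n)^6` primes divide the numbers `q(m)² + q̄(m)²`,
`m = k + φ(n-k)/2`, `1 ≤ k ≤ n - 3`. -/

namespace Pool.Agent.Results.MP_9cfd17_nt.TotientShiftPrimeFactors

theorem result :
    ∃ n₀ : ℕ, ∀ n : ℕ, n₀ ≤ n → ∃ P : Finset ℕ,
      (n : ℝ) ^ (1 / 3 : ℝ) / Real.log (n : ℝ) ^ 6 ≤ (P.card : ℝ) ∧
      ∀ p ∈ P, p.Prime ∧ ∃ k m : ℕ, 1 ≤ k ∧ k ≤ n - 3 ∧ m = k + Nat.totient (n - k) / 2 ∧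
        p ∣ (Nat.Partition.distincts m).card ^ 2 +
          (Fintype.card (Nat.Partition m) - (Nat.Partition.distincts m).card) ^ 2 := by
  obtain ⟨n₀, h⟩ :=
    open Pool.Agent.MP_9cfd17_nt in thmA2 asym_main vanish schwarz taylor lgs siegel
  refine ⟨n₀, fun n hn => ?_⟩
  obtain ⟨P, h1, h2⟩ := h n hn
  refine ⟨P, h1, fun p hp => ?_⟩
  obtain ⟨h3, k, h4, h5, h6⟩ := h2 p hp
  exact ⟨h3, k, _, h4, h5, rfl, h6⟩

end Pool.Agent.Results.MP_9cfd17_nt.TotientShiftPrimeFactors
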