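import Pool.Agent.Mg.F9cfd17.G7c6f02
import Pool.Agent.Mg.F9cfd17.Ge159ca

/-! At least `c √N / (log N)^5` primes divide the numbers `q(m)² + q̄(m)²`, `N ≤ m ≤ 2N`. -/

namespace Pool.Agent.Results.MP_9cfd17_nt.WindowPrimeFactors

theorem result :
    ∃ c : ℝ, 0 < c ∧ ∃ N₀ : ℕ, ∀ N : ℕ, N₀ ≤ N → ∃ P : Finset ℕ,
      c * √(N : ℝ) / Real.log (N : ℝ) ^ 5 ≤ (P.card : ℝ) ∧
      ∀ p ∈ P, p.Prime ∧ ∃ m : ℕ, N ≤ m ∧ m ≤ 2 * N ∧
        p ∣ (Nat.Partition.distincts m).card ^ 2 +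
          (Fintype.card (Nat.Partition m) - (Nat.Partition.distincts m).card) ^ 2 :=
  open Pool.Agent.MP_9cfd17_nt in
  thmB asym_main vanish schwarz taylor coef lgs siegel

end Pool.Agent.Results.MP_9cfd17_nt.WindowPrimeFactors
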